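import Pool.Agent.Lib.MP_e21d7a_al.Cls.Final

set_option autoImplicit false

namespace Pool.Agent.Results.MP_e21d7a_al.Classify

open Pool.Agent.Lib.MP_e21d7a_al.Proj

universe u v

/-- For a Coxeter system of finite rank with any admissible bilinear form, the inversion set of
every infinite reduced word has exactly one accumulation point in the projective space if and only
if there are no two commuting sets of generators that both generate infinite subgroups. -/
theorem result : ∀ (n : ℕ) (M : CoxeterMatrix (Fin n)) (W : Type u) [Group W]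
    (cs : CoxeterSystem M W) (V : Type v) [AddCommGroup V] [Module ℝ V] [TopologicalSpace V]
    [IsTopologicalAddGroup V] [ContinuousSMul ℝ V] [T2Space V] (α : Module.Basis (Fin n) ℝ V)
    (B : LinearMap.BilinForm ℝ V), (∀ i j, B (α i) (α j) = B (α j) (α i)) →
    (∀ i j, M i j ≠ 0 → B (α i) (α j) = -Real.cos (Real.pi / M i j)) →
    (∀ i j, M i j = 0 → B (α i) (α j) ≤ -1) →
    ((∀ s : ℕ → Fin n, (∀ k : ℕ, cs.IsReduced (List.ofFn fun j : Fin k => s j)) →
      ∃! p : Projectivization ℝ V, @AccPt _ (projTop V) p
        (Filter.principal {q | ∃ k : ℕ, q.submodule = Submodule.span ℝ {invRoot B α s k}})) ↔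
    ∀ I J : Set (Fin n), (∀ i ∈ I, ∀ j ∈ J, M i j = 2) →
      (Subgroup.closure (cs.simple '' I) : Set W).Finite ∨
        (Subgroup.closure (cs.simple '' J) : Set W).Finite) := by
  intro n M W _ cs V _ _ _ _ _ _ α B h1 h2 h3
  let : Pool.Agent.Lib.MP_e21d7a_al.Cls.Gram M := ⟨fun i j => B (α i) (α j), h1, h2, h3⟩
  exact Pool.Agent.Lib.MP_e21d7a_al.Cls.classify cs α B fun _ _ => rfl

end Pool.Agent.Results.MP_e21d7a_al.Classify
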